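import Mathlib
import Pool.Agent.X46.Unital

/-!
# Disproof of the extremal conjecture for 2-regular subgraphs on `2k` vertices, at `k = 3`

For infinitely many `n` (namely `n = 2 ^ (2 * 3 ^ j) + 1`, `j = 0, 1, 2, …`) we construct a
3-uniform hypergraph on `n` vertices with `C(n,2)` edges and without 2-regular subgraphs on 6
vertices. This is `n - 1 - ⌊(n-1)/3⌋` more than the conjectured maximum
`C(n-1,2) + ⌊(n-1)/3⌋`.

The construction iterates Hermitian unitals: the unital of order `q` is a design on `q³+1` points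
with blocks of size `q+1` and, by O'Nan's theorem, without four blocks meeting pairwise in six
distinct points; on each block one puts the previously constructed hypergraph.
-/

namespace Pool.Agent.Results.MP_bc9e10_co.UnitalCounterexample

open Finset Pool.Agent.X46.Onan Pool.Agent.X46.Unital

/-- The full `k`-star with centre `v`. -/
def fullStar (k : ℕ) {n : ℕ} (v : Fin n) : Finset (Finset (Fin n)) :=
  (powersetCard k univ).filter (fun e => v ∈ e)

/-- `M` is a maximal family of pairwise disjoint `k`-sets omitting `v`. -/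
def IsMaximalMatching (k : ℕ) {n : ℕ} (v : Fin n) (M : Finset (Finset (Fin n))) : Prop :=
  (∀ e ∈ M, e.card = k ∧ v ∉ e) ∧ (∀ e ∈ M, ∀ f ∈ M, e ≠ f → Disjoint e f) ∧
    ∀ e : Finset (Fin n), e.card = k → v ∉ e → e ∉ M → ∃ f ∈ M, ¬ Disjoint e f

/-- `H` is a full `k`-star together with a maximal matching omitting its centre. -/
def IsStarPlusMatching (k : ℕ) {n : ℕ} (H : Finset (Finset (Fin n))) : Prop :=
  ∃ v : Fin n, ∃ M : Finset (Finset (Fin n)), IsMaximalMatching k v M ∧ H = fullStar k v ∪ M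

/-- The conjecture of the problem (Q1). -/
def Conjecture : Prop :=
  ∀ k : ℕ, 3 ≤ k → ∃ n₀ : ℕ, ∀ n : ℕ, n₀ ≤ n → ∀ H : Finset (Finset (Fin n)),
    (∀ e ∈ H, e.card = k) → NoTwoRegular k H →
      H.card ≤ (n - 1).choose (k - 1) + (n - 1) / k ∧
      (H.card = (n - 1).choose (k - 1) + (n - 1) / k ↔ IsStarPlusMatching k H)

/-- There is a 3-graph on `n` points with `C(n,2)` edges and no 2-regular subgraph on 6
vertices. -/
def Perfect (n : ℕ) : Prop :=
  ∃ H : Finset (Finset (Fin n)), (∀ e ∈ H, e.card = 3) ∧ NoTwoRegular 3 H ∧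
    H.card = n.choose 2

theorem perfect_five : Perfect 5 := by
  refine ⟨powersetCard 3 univ, fun e he => (mem_powersetCard.1 he).2, ?_, ?_⟩
  · intro F _ _ h
    have := card_le_univ (F.biUnion id)
    rw [Fintype.card_fin, h] at this
    omega
  · rw [card_powersetCard, card_univ, Fintype.card_fin]
    rfl

theorem perfect_step {m : ℕ} (hm : 1 ≤ m) (h : Perfect (2 ^ m + 1)) :
    Perfect (2 ^ (3 * m) + 1) := by
  classical
  haveI : Fact (Nat.Prime 2) := ⟨Nat.prime_two⟩
  let K := GaloisField 2 (2 * m)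
  haveI : Finite K := inferInstance
  letI : Fintype K := Fintype.ofFinite K
  have hcard : Fintype.card K = (2 ^ m) ^ 2 := by
    have h1 : Nat.card K = 2 ^ (2 * m) := GaloisField.card 2 (2 * m) (by omega)
    rw [Nat.card_eq_fintype_card] at h1
    rw [h1, ← pow_mul, mul_comm]
  have hσ : ∀ x : K, iterateFrobenius K 2 m x = x ^ (2 ^ m) := fun x => rfl
  have hq : 2 ≤ 2 ^ m := by
    calc 2 = 2 ^ 1 := by norm_num
      _ ≤ 2 ^ m := Nat.pow_le_pow_right (by norm_num) hm
  have hgood := unital_good (iterateFrobenius K 2 m) (2 ^ m) hσ hcard hq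
  obtain ⟨H, h1, h2, h3⟩ := composition hgood h
  have hpt := card_pt (iterateFrobenius K 2 m) (2 ^ m) hσ hcard hq
  have hpt' : Fintype.card (Pt (iterateFrobenius K 2 m)) = 2 ^ (3 * m) + 1 := by
    rw [hpt, ← pow_mul, mul_comm m 3]
  let f : Pt (iterateFrobenius K 2 m) ↪ Fin (2 ^ (3 * m) + 1) :=
    (Fintype.equivFinOfCardEq hpt').toEmbedding
  refine ⟨H.image (fun e => e.map f), ?_, noTwoRegular_map f h2, ?_⟩
  · intro e he
    obtain ⟨e', he', rfl⟩ := mem_image.1 he
    rw [card_map]; exact h1 e' he'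
  · rw [card_image_of_injective _ (map_injective f), h3, hpt']

theorem perfect_all (j : ℕ) : Perfect (2 ^ (2 * 3 ^ j) + 1) := by
  induction j with
  | zero => exact perfect_five
  | succ j ih =>
    have h1 : 1 ≤ 2 * 3 ^ j := by
      have : 0 < 3 ^ j := by positivity
      omega
    have h2 := perfect_step h1 ih
    have h3 : 3 * (2 * 3 ^ j) = 2 * 3 ^ (j + 1) := by ring
    rwa [h3] at h2

/-- **Disproof of the conjecture.** For infinitely many `n` there is an `n`-vertex 3-uniform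
hypergraph with `C(n,2) > C(n-1,2) + ⌊(n-1)/3⌋` edges and without 2-regular subgraphs on 6
vertices; in particular the conjecture fails. -/
theorem result :
    (∀ N : ℕ, ∃ n : ℕ, N ≤ n ∧ ∃ H : Finset (Finset (Fin n)), (∀ e ∈ H, e.card = 3) ∧
      NoTwoRegular 3 H ∧ H.card = n.choose 2 ∧
      (n - 1).choose (3 - 1) + (n - 1) / 3 < H.card) ∧ ¬ Conjecture := by
  have hmain : ∀ N : ℕ, ∃ n : ℕ, N ≤ n ∧ ∃ H : Finset (Finset (Fin n)),
      (∀ e ∈ H, e.card = 3) ∧ NoTwoRegular 3 H ∧ H.card = n.choose 2 ∧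
      (n - 1).choose (3 - 1) + (n - 1) / 3 < H.card := by
    intro N
    obtain ⟨H, h1, h2, h3⟩ := perfect_all N
    have hN : N ≤ 2 * 3 ^ N := by
      have := (Nat.lt_pow_self (show 1 < 3 by norm_num) : N < 3 ^ N)
      omega
    have hN2 : 2 * 3 ^ N < 2 ^ (2 * 3 ^ N) := Nat.lt_pow_self (by norm_num)
    refine ⟨2 ^ (2 * 3 ^ N) + 1, by omega, H, h1, h2, h3, ?_⟩
    have e2 : (2 ^ (2 * 3 ^ N) + 1).choose 2 =
        2 ^ (2 * 3 ^ N) + (2 ^ (2 * 3 ^ N)).choose 2 := by
      rw [Nat.choose_succ_succ' (2 ^ (2 * 3 ^ N)) 1, Nat.choose_one_right]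
    rw [h3, Nat.add_sub_cancel, e2]
    have : 1 ≤ 2 ^ (2 * 3 ^ N) := Nat.one_le_two_pow
    have e3 : (3 : ℕ) - 1 = 2 := rfl
    rw [e3]
    omega
  refine ⟨hmain, fun hconj => ?_⟩
  obtain ⟨n₀, h⟩ := hconj 3 le_rfl
  obtain ⟨n, hn, H, h1, h2, _, h4⟩ := hmain n₀
  exact absurd (h n hn H h1 h2).1 (not_le.2 h4)

end Pool.Agent.Results.MP_bc9e10_co.UnitalCounterexample
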